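import Mathlib

set_option autoImplicit false

/-!
# Affine combinations, generic points, cones
-/

namespace Pool.Agent.Q258.SimpLat

open Finset

variable {V : Type*} [AddCommGroup V] [Module ℝ V]

/-- the affine combinations of the points of `D` -/
def Aff (D : Finset V) : Set V :=
  {x | ∃ w : V → ℝ, ∑ v ∈ D, w v = 1 ∧ ∑ v ∈ D, w v • v = x}

theorem map_comb (φ : V →ᵃ[ℝ] ℝ) (D : Finset V) (w : V → ℝ) (h : ∑ v ∈ D, w v = 1) :
    φ (∑ v ∈ D, w v • v) = ∑ v ∈ D, w v * φ v := by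
  have h1 : ∀ x, φ x = φ.linear x + φ 0 := fun x => by
    have := φ.map_vadd 0 x
    simpa using this
  have h2 : ∑ v ∈ D, w v * φ v = ∑ v ∈ D, w v * φ.linear v + (∑ v ∈ D, w v) * φ 0 := by
    rw [sum_mul, ← sum_add_distrib]
    apply sum_congr rfl
    intro v _
    rw [h1 v]
    ring
  rw [h1, h2, h, one_mul, _root_.map_sum]
  simp_rw [map_smul, smul_eq_mul]

theorem map_two (φ : V →ᵃ[ℝ] ℝ) (a b : ℝ) (x y : V) (h : a + b = 1) :
    φ (a • x + b • y) = a * φ x + b * φ y := by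
  have h1 : ∀ x, φ x = φ.linear x + φ 0 := fun x => by
    have := φ.map_vadd 0 x
    simpa using this
  rw [h1 (a • x + b • y), h1 x, h1 y, map_add, map_smul, map_smul, smul_eq_mul, smul_eq_mul]
  have : b = 1 - a := by linarith
  rw [this]
  ring

theorem subset_Aff {D : Finset V} {v : V} (hv : v ∈ D) : v ∈ Aff D := by
  classical
  refine ⟨fun w => if w = v then 1 else 0, ?_, ?_⟩
  · simp [hv]
  · simp [hv]

theorem Aff_trans [DecidableEq V] {D E : Finset V} (h : ∀ v ∈ D, v ∈ Aff E) {x : V}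
    (hx : x ∈ Aff D) : x ∈ Aff E := by
  obtain ⟨w, hw1, hw2⟩ := hx
  choose! u hu1 hu2 using h
  refine ⟨fun e => ∑ v ∈ D, w v * u v e, ?_, ?_⟩
  · rw [sum_comm]
    rw [← hw1]
    apply sum_congr rfl
    intro v hv
    rw [← mul_sum, hu1 v hv, mul_one]
  · rw [← hw2]
    simp_rw [sum_smul]
    rw [sum_comm]
    apply sum_congr rfl
    intro v hv
    have e1 : w v • v = w v • ∑ e ∈ E, u v e • e := by rw [hu2 v hv]
    rw [e1, smul_sum]
    apply sum_congr rfl
    intro e _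
    rw [mul_smul]

theorem map_Aff {D : Finset V} {φ : V →ᵃ[ℝ] ℝ} (h : ∀ v ∈ D, φ v = 0) {x : V} (hx : x ∈ Aff D) :
    φ x = 0 := by
  obtain ⟨w, hw1, hw2⟩ := hx
  rw [← hw2, map_comb φ D w hw1]
  exact sum_eq_zero fun v hv => by rw [h v hv, mul_zero]

theorem conv_subset_Aff {D : Finset V} {x : V} (hx : x ∈ convexHull ℝ (D : Set V)) : x ∈ Aff D := by
  rw [Finset.mem_convexHull'] at hx
  obtain ⟨w, _, h1, h2⟩ := hx
  exact ⟨w, h1, h2⟩

/-- every point of `D` has a dual affine functional -/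
def Good (D : Finset V) : Prop :=
  ∀ v ∈ D, ∃ φ : V →ᵃ[ℝ] ℝ, φ v = 1 ∧ ∀ w ∈ D, w ≠ v → φ w = 0

theorem Good.mono {D E : Finset V} (h : Good D) (hE : E ⊆ D) : Good E := fun v hv => by
  obtain ⟨φ, h1, h2⟩ := h v (hE hv)
  exact ⟨φ, h1, fun w hw hne => h2 w (hE hw) hne⟩

theorem Good.insert [DecidableEq V] {F : Finset V} (hF : Good F) {s : V} {h : V →ᵃ[ℝ] ℝ}
    (h1 : h s = 1) (h0 : ∀ v ∈ F, h v = 0) : Good (insert s F) := by
  have hs : s ∉ F := fun hs => by
    have := h0 s hs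
    rw [h1] at this
    exact one_ne_zero this
  intro v hv
  rw [mem_insert] at hv
  rcases hv with rfl | hv
  · refine ⟨h, h1, fun w hw hne => ?_⟩
    rw [mem_insert] at hw
    rcases hw with rfl | hw
    · exact absurd rfl hne
    · exact h0 w hw
  · obtain ⟨φ, hφ1, hφ2⟩ := hF v hv
    refine ⟨φ - φ s • h, ?_, ?_⟩
    · simp [hφ1, h0 v hv]
    · intro w hw hne
      rw [mem_insert] at hw
      rcases hw with rfl | hw
      · simp [h1]
      · simp [hφ2 w hw hne, h0 w hw]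

/-- full simplices of `S` -/
def Full (S D : Finset V) : Prop := D ⊆ S ∧ Good D ∧ ∀ s ∈ S, s ∈ Aff D

theorem Full.aff [DecidableEq V] {S D : Finset V} (h : Full S D) {x : V} (hx : x ∈ Aff S) :
    x ∈ Aff D := Aff_trans h.2.2 hx

theorem Full.aff' [DecidableEq V] {S D : Finset V} (h : Full S D) {x : V} (hx : x ∈ Aff D) :
    x ∈ Aff S := Aff_trans (fun _ hv => subset_Aff (h.1 hv)) hx

/-- A property holds at almost all points of `A`: at all points at which finitely many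
affine functionals, none of which vanishes identically on `A`, do not vanish. -/
def AA (A : Set V) (p : V → Prop) : Prop :=
  ∃ Φ : Finset (V →ᵃ[ℝ] ℝ), (∀ φ ∈ Φ, ∃ a ∈ A, φ a ≠ 0) ∧ ∀ x ∈ A, (∀ φ ∈ Φ, φ x ≠ 0) → p x

theorem AA.mono {A : Set V} {p q : V → Prop} (h : AA A p) (hpq : ∀ x ∈ A, p x → q x) :
    AA A q := by
  obtain ⟨Φ, h1, h2⟩ := h
  exact ⟨Φ, h1, fun x hx hφ => hpq x hx (h2 x hx hφ)⟩

theorem AA.and {A : Set V} {p q : V → Prop} (h : AA A p) (h' : AA A q) :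
    AA A (fun x => p x ∧ q x) := by
  classical
  obtain ⟨Φ, h1, h2⟩ := h
  obtain ⟨Φ', h1', h2'⟩ := h'
  refine ⟨Φ ∪ Φ', ?_, ?_⟩
  · intro φ hφ
    rw [mem_union] at hφ
    rcases hφ with hφ | hφ
    · exact h1 φ hφ
    · exact h1' φ hφ
  · intro x hx hφ
    exact ⟨h2 x hx fun φ h => hφ φ (mem_union_left _ h),
      h2' x hx fun φ h => hφ φ (mem_union_right _ h)⟩

theorem AA.of_forall {A : Set V} {p : V → Prop} (h : ∀ x ∈ A, p x) : AA A p :=
  ⟨∅, by simp, fun x hx _ => h x hx⟩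

theorem AA.ne {A : Set V} (φ : V →ᵃ[ℝ] ℝ) (h : ∃ a ∈ A, φ a ≠ 0) : AA A (fun x => φ x ≠ 0) :=
  ⟨{φ}, by simpa using h, fun x _ hx => hx φ (mem_singleton_self φ)⟩

theorem AA.finset {ι : Type*} {A : Set V} {p : ι → V → Prop} (s : Finset ι)
    (h : ∀ i ∈ s, AA A (p i)) : AA A (fun x => ∀ i ∈ s, p i x) := by
  classical
  induction s using Finset.induction_on with
  | empty => exact AA.of_forall (by simp)
  | insert i s hi ih =>
    have h1 := h i (mem_insert_self i s)
    have h2 := ih fun j hj => h j (mem_insert_of_mem hj)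
    refine (h1.and h2).mono fun x _ hx j hj => ?_
    rw [mem_insert] at hj
    rcases hj with rfl | hj
    · exact hx.1
    · exact hx.2 j hj

open Classical in
/-- indicator function of the convex hull of `D` -/
noncomputable def ind (D : Finset V) (x : V) : ℝ := if x ∈ convexHull ℝ (D : Set V) then 1 else 0

/-- the projection from `s` to the hyperplane `h = 0` (where `h s = 1`) -/
noncomputable def prj (s : V) (h : V →ᵃ[ℝ] ℝ) (x : V) : V := s + (1 - h x)⁻¹ • (x - s)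

open Classical in
/-- the cone over a function on the hyperplane `h = 0` -/
noncomputable def cone (s : V) (h : V →ᵃ[ℝ] ℝ) (u : V → ℝ) (x : V) : ℝ :=
  if 0 ≤ h x ∧ h x < 1 then u (prj s h x) else 0

theorem conv_zero {F : Finset V} {h : V →ᵃ[ℝ] ℝ} (h0 : ∀ v ∈ F, h v = 0) {z : V}
    (hz : z ∈ convexHull ℝ (F : Set V)) : h z = 0 := map_Aff h0 (conv_subset_Aff hz)

theorem mem_cone_iff [DecidableEq V] {F : Finset V} (hF : F.Nonempty) {s : V} {h : V →ᵃ[ℝ] ℝ}
    (h1 : h s = 1) (h0 : ∀ v ∈ F, h v = 0) {x : V} (hx : x ≠ s) :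
    x ∈ convexHull ℝ ((insert s F : Finset V) : Set V) ↔
      (0 ≤ h x ∧ h x < 1) ∧ prj s h x ∈ convexHull ℝ (F : Set V) := by
  rw [coe_insert, convexHull_insert (by exact_mod_cast hF), mem_convexJoin]
  constructor
  · rintro ⟨a, ha, z, hz, a', b, ha', hb, hab, hxe⟩
    rw [Set.mem_singleton_iff] at ha
    subst ha
    have hhx : h x = a' := by
      rw [← hxe, map_two h a' b _ _ hab, h1, conv_zero h0 hz]
      ring
    have hb0 : b ≠ 0 := by
      rintro rfl
      apply hx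
      rw [← hxe]
      have : a' = 1 := by linarith
      rw [this]
      simp
    have hb1 : 0 < b := lt_of_le_of_ne hb (Ne.symm hb0)
    refine ⟨⟨by rw [hhx]; exact ha', by rw [hhx]; linarith⟩, ?_⟩
    have e : prj a h x = z := by
      unfold prj
      rw [hhx, show (1 : ℝ) - a' = b by linarith]
      have : x - a = b • (z - a) := by
        rw [← hxe, show a' = 1 - b by linarith, sub_smul, smul_sub, one_smul]
        abel
      rw [this, smul_smul, inv_mul_cancel₀ hb0, one_smul]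
      abel
    rw [e]
    exact hz
  · rintro ⟨⟨h2, h3⟩, hz⟩
    refine ⟨s, Set.mem_singleton s, _, hz, h x, 1 - h x, h2, by linarith, by ring, ?_⟩
    unfold prj
    have hb0 : (1 : ℝ) - h x ≠ 0 := by linarith
    rw [smul_add, smul_smul, mul_inv_cancel₀ hb0, one_smul, sub_smul, one_smul]
    abel

theorem ind_insert [DecidableEq V] {F : Finset V} (hF : F.Nonempty) {s : V} {h : V →ᵃ[ℝ] ℝ}
    (h1 : h s = 1) (h0 : ∀ v ∈ F, h v = 0) {x : V} (hx : x ≠ s) :
    ind (insert s F) x = cone s h (ind F) x := by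
  have hiff := mem_cone_iff hF h1 h0 hx
  unfold ind cone
  by_cases h2 : 0 ≤ h x ∧ h x < 1
  · rw [if_pos h2]
    by_cases h3 : prj s h x ∈ convexHull ℝ (F : Set V)
    · rw [if_pos (hiff.2 ⟨h2, h3⟩)]
      exact (if_pos h3).symm
    · rw [if_neg (fun h => h3 (hiff.1 h).2)]
      exact (if_neg h3).symm
  · rw [if_neg h2, if_neg (fun h => h2 (hiff.1 h).1)]

theorem prj_affine (φ h : V →ᵃ[ℝ] ℝ) (s x : V) (hx : h x ≠ 1) :
    φ (prj s h x) = (1 - h x)⁻¹ * (φ x - φ s * h x) := by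
  have hb0 : (1 : ℝ) - h x ≠ 0 := fun h' => hx (by linarith)
  have e : prj s h x = (1 - (1 - h x)⁻¹) • s + (1 - h x)⁻¹ • x := by
    unfold prj
    rw [smul_sub, sub_smul, one_smul]
    abel
  rw [e, map_two φ _ _ _ _ (by ring)]
  field_simp
  ring

theorem h_prj {h : V →ᵃ[ℝ] ℝ} {s x : V} (h1 : h s = 1) (hx : h x ≠ 1) : h (prj s h x) = 0 := by
  rw [prj_affine h h s x hx, h1]
  ring

theorem Aff_two [DecidableEq V] {D : Finset V} {a b : ℝ} {x y : V} (hab : a + b = 1)
    (hx : x ∈ Aff D) (hy : y ∈ Aff D) : a • x + b • y ∈ Aff D := by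
  obtain ⟨u, hu1, hu2⟩ := hx
  obtain ⟨w, hw1, hw2⟩ := hy
  refine ⟨fun v => a * u v + b * w v, ?_, ?_⟩
  · rw [sum_add_distrib, ← mul_sum, ← mul_sum, hu1, hw1]
    linarith
  · rw [← hu2, ← hw2, smul_sum, smul_sum, ← sum_add_distrib]
    apply sum_congr rfl
    intro v _
    rw [add_smul, mul_smul, mul_smul]

theorem prj_mem_Aff [DecidableEq V] {D : Finset V} {h : V →ᵃ[ℝ] ℝ} {s x : V} (hs : s ∈ Aff D)
    (hx : x ∈ Aff D) : prj s h x ∈ Aff D := by
  have e : prj s h x = (1 - (1 - h x)⁻¹) • s + (1 - h x)⁻¹ • x := by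
    unfold prj
    rw [smul_sub, sub_smul, one_smul]
    abel
  rw [e]
  exact Aff_two (by ring) hs hx

/-- a point of the span of `insert s F` on the hyperplane `h = 0` is in the span of `F` -/
theorem mem_Aff_of_zero [DecidableEq V] {F : Finset V} {s : V} {h : V →ᵃ[ℝ] ℝ} (h1 : h s = 1)
    (h0 : ∀ v ∈ F, h v = 0) {x : V} (hx : x ∈ Aff (insert s F)) (hhx : h x = 0) : x ∈ Aff F := by
  have hs : s ∉ F := fun hs => by
    have := h0 s hs
    rw [h1] at this
    exact one_ne_zero this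
  obtain ⟨w, hw1, hw2⟩ := hx
  have h2 : h x = w s := by
    rw [← hw2, map_comb h _ w hw1, sum_insert hs, h1, mul_one,
      sum_eq_zero (fun v hv => by rw [h0 v hv, mul_zero]), add_zero]
  rw [hhx] at h2
  rw [sum_insert hs, ← h2, zero_add] at hw1
  rw [sum_insert hs, ← h2, zero_smul, zero_add] at hw2
  exact ⟨w, hw1, hw2⟩

/-- transfer of almost all points of the hyperplane to almost all points of the cone -/
theorem AA.cone [DecidableEq V] {F : Finset V} {s : V} {h : V →ᵃ[ℝ] ℝ} (h1 : h s = 1)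
    (h0 : ∀ v ∈ F, h v = 0) (hF : F.Nonempty) {u u' : V → ℝ} (H : AA (Aff F) (fun y => u y = u' y)) :
    AA (Aff (insert s F)) (fun x => cone s h u x = cone s h u' x) := by
  classical
  obtain ⟨Φ, hΦ, hp⟩ := H
  have hFA : ∀ a ∈ Aff F, a ∈ Aff (insert s F) := fun a ha =>
    Aff_trans (fun v hv => subset_Aff (mem_insert_of_mem hv)) ha
  refine ⟨insert (AffineMap.const ℝ V (1 : ℝ) - h) (Φ.image fun φ => φ - φ s • h), ?_, ?_⟩
  · intro ψ hψ
    rw [mem_insert, mem_image] at hψ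
    rcases hψ with rfl | ⟨φ, hφ, rfl⟩
    · obtain ⟨v, hv⟩ := hF
      refine ⟨v, subset_Aff (mem_insert_of_mem hv), ?_⟩
      simp [h0 v hv]
    · obtain ⟨a, ha, hne⟩ := hΦ φ hφ
      refine ⟨a, hFA a ha, ?_⟩
      have : h a = 0 := map_Aff h0 ha
      simpa [this] using hne
  · intro x hx hψ
    have hx1 : h x ≠ 1 := by
      have := hψ _ (mem_insert_self _ _)
      intro hh
      apply this
      simp [hh]
    unfold SimpLat.cone
    split_ifs with hc
    · have hy : prj s h x ∈ Aff F :=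
        mem_Aff_of_zero h1 h0 (prj_mem_Aff (subset_Aff (mem_insert_self s F)) hx) (h_prj h1 hx1)
      apply hp _ hy
      intro φ hφ
      rw [prj_affine φ h s x hx1]
      have h3 := hψ (φ - φ s • h) (mem_insert_of_mem (mem_image_of_mem _ hφ))
      have h4 : φ x - φ s * h x ≠ 0 := by simpa using h3
      have hb0 : (1 : ℝ) - h x ≠ 0 := fun h' => hx1 (by linarith)
      exact mul_ne_zero (inv_ne_zero hb0) h4
    · rfl

end Pool.Agent.Q258.SimpLat
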