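import Pool.Agent.Q258.SimpLat.Basic

set_option autoImplicit false

/-!
# Decomposition of a simplex into cones with a given apex
-/

namespace Pool.Agent.Q258.SimpLat

open Finset

section comb

variable {V : Type*} [DecidableEq V] (D : Finset V) (c x : V → ℝ)

/-- the condition -/
def Q (i : V) : Prop := ∀ j ∈ D, x i / c i * c j ≤ x j

open Classical in
theorem comb_identity (hc : ∑ i ∈ D, c i = 1) (hx0 : ∀ i ∈ D, x i ≠ 0)
    (hgen : ∀ i ∈ D, ∀ j ∈ D, i ≠ j → c i ≠ 0 → c j ≠ 0 → x i / c i ≠ x j / c j) :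
    (if ∀ j ∈ D, 0 ≤ x j then (1 : ℝ) else 0) =
      ∑ i ∈ D.filter (fun i => c i ≠ 0), (((if 0 < c i then 1 else -1 : ℤ) : ℤ) : ℝ) *
        (if 0 ≤ x i / c i ∧ Q D c x i then (1 : ℝ) else 0) := by
  set P : V → Prop := fun i => 0 ≤ x i / c i ∧ Q D c x i with hP
  -- the sum as a difference of cardinalities
  have hsum : ∑ i ∈ D.filter (fun i => c i ≠ 0), (((if 0 < c i then 1 else -1 : ℤ) : ℤ) : ℝ) *
        (if P i then (1 : ℝ) else 0) =
      ((D.filter (fun i => 0 < c i ∧ P i)).card : ℝ) -
        ((D.filter (fun i => c i < 0 ∧ P i)).card : ℝ) := by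
    rw [card_filter, card_filter]
    push_cast
    rw [← sum_sub_distrib, sum_filter]
    apply sum_congr rfl
    intro i _
    rcases lt_trichotomy (c i) 0 with h | h | h
    · have h1 : c i ≠ 0 := h.ne
      have h2 : ¬ 0 < c i := not_lt.2 h.le
      by_cases h3 : P i <;> simp [h, h1, h2, h3]
    · simp [h]
    · have h1 : c i ≠ 0 := h.ne'
      have h2 : ¬ c i < 0 := not_lt.2 h.le
      by_cases h3 : P i <;> simp [h, h1, h2, h3]
  rw [hsum]
  -- at most one
  have hup : ∀ i ∈ D, ∀ j ∈ D, 0 < c i → 0 < c j → Q D c x i → x i / c i ≤ x j / c j := by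
    intro i _ j hj _ hcj hQ
    rw [le_div_iff₀ hcj]
    exact hQ j hj
  have hdn : ∀ i ∈ D, ∀ j ∈ D, c j < 0 → Q D c x i → x j / c j ≤ x i / c i := by
    intro i _ j hj hcj hQ
    rw [div_le_iff_of_neg hcj]
    exact hQ j hj
  have h1 : (D.filter (fun i => 0 < c i ∧ P i)).card ≤ 1 := by
    rw [card_le_one]
    intro a ha b hb
    rw [mem_filter] at ha hb
    by_contra hab
    exact hgen a ha.1 b hb.1 hab ha.2.1.ne' hb.2.1.ne'
      (le_antisymm (hup a ha.1 b hb.1 ha.2.1 hb.2.1 ha.2.2.2)
        (hup b hb.1 a ha.1 hb.2.1 ha.2.1 hb.2.2.2))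
  have h2 : (D.filter (fun i => c i < 0 ∧ P i)).card ≤ 1 := by
    rw [card_le_one]
    intro a ha b hb
    rw [mem_filter] at ha hb
    by_contra hab
    exact hgen a ha.1 b hb.1 hab ha.2.1.ne hb.2.1.ne
      (le_antisymm (hdn b hb.1 a ha.1 ha.2.1 hb.2.2.2)
        (hdn a ha.1 b hb.1 hb.2.1 ha.2.2.2))
  -- the minimum of the quotients with positive `c`
  obtain ⟨ip, hip, hipc, hipmin⟩ : ∃ ip ∈ D, 0 < c ip ∧ ∀ j ∈ D, 0 < c j →
      x ip / c ip ≤ x j / c j := by
    have hne : (D.filter (fun i => 0 < c i)).Nonempty := by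
      rw [nonempty_iff_ne_empty]
      intro he
      have : ∑ i ∈ D, c i ≤ 0 := by
        apply sum_nonpos
        intro i hi
        by_contra h
        have : i ∈ D.filter (fun i => 0 < c i) := mem_filter.2 ⟨hi, not_le.1 h⟩
        rw [he] at this
        exact absurd this (notMem_empty i)
      linarith
    obtain ⟨i, hi, hmin⟩ := exists_min_image _ (fun i => x i / c i) hne
    rw [mem_filter] at hi
    exact ⟨i, hi.1, hi.2, fun j hj hcj => hmin j (mem_filter.2 ⟨hj, hcj⟩)⟩
  by_cases hA : ∀ j ∈ D, 0 ≤ x j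
  · rw [if_pos hA]
    have hpos : 0 ≤ x ip / c ip := div_nonneg (hA ip hip) hipc.le
    have hPip : P ip := by
      refine ⟨hpos, fun j hj => ?_⟩
      by_cases hcj : 0 < c j
      · have := hipmin j hj hcj
        rwa [le_div_iff₀ hcj] at this
      · have : x ip / c ip * c j ≤ 0 := mul_nonpos_of_nonneg_of_nonpos hpos (not_lt.1 hcj)
        exact this.trans (hA j hj)
    have e1 : (D.filter (fun i => 0 < c i ∧ P i)).card = 1 := by
      apply le_antisymm h1
      exact card_pos.2 ⟨ip, mem_filter.2 ⟨hip, hipc, hPip⟩⟩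
    have e2 : (D.filter (fun i => c i < 0 ∧ P i)).card = 0 := by
      rw [card_eq_zero, filter_eq_empty_iff]
      rintro i hi ⟨hci, hPi⟩
      have h3 : 0 < x i := lt_of_le_of_ne (hA i hi) (Ne.symm (hx0 i hi))
      have h4 : x i / c i < 0 := div_neg_of_pos_of_neg h3 hci
      exact absurd hPi.1 (not_le.2 h4)
    rw [e1, e2]
    norm_num
  · rw [if_neg hA]
    push Not at hA
    obtain ⟨j0, hj0, hxj0⟩ := hA
    have key : (D.filter (fun i => 0 < c i ∧ P i)).Nonempty ↔
        (D.filter (fun i => c i < 0 ∧ P i)).Nonempty := by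
      constructor
      · rintro ⟨i, hi⟩
        rw [mem_filter] at hi
        obtain ⟨hi, hci, hPi0, hPiQ⟩ := hi
        have hcj0 : c j0 < 0 := by
          by_contra h
          have h3 := hPiQ j0 hj0
          have h4 : 0 ≤ x i / c i * c j0 := mul_nonneg hPi0 (not_lt.1 h)
          linarith
        obtain ⟨k, hk, hmax⟩ := exists_max_image (D.filter (fun i => c i < 0))
          (fun i => x i / c i) ⟨j0, mem_filter.2 ⟨hj0, hcj0⟩⟩
        rw [mem_filter] at hk
        have hk0 : 0 ≤ x k / c k := by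
          have h5 := hmax j0 (mem_filter.2 ⟨hj0, hcj0⟩)
          have h6 : 0 ≤ x j0 / c j0 := div_nonneg_of_nonpos hxj0.le hcj0.le
          exact h6.trans h5
        refine ⟨k, mem_filter.2 ⟨hk.1, hk.2, hk0, fun j hj => ?_⟩⟩
        by_cases hcj : c j < 0
        · have h5 := hmax j (mem_filter.2 ⟨hj, hcj⟩)
          beta_reduce at h5
          rwa [div_le_iff_of_neg hcj] at h5
        · have h5 := hdn i hi k hk.1 hk.2 hPiQ
          exact (mul_le_mul_of_nonneg_right h5 (not_lt.1 hcj)).trans (hPiQ j hj)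
      · rintro ⟨i, hi⟩
        rw [mem_filter] at hi
        obtain ⟨hi, hci, hPi0, hPiQ⟩ := hi
        have h5 : x i / c i ≤ x ip / c ip := by
          rw [le_div_iff₀ hipc]
          exact hPiQ ip hip
        refine ⟨ip, mem_filter.2 ⟨hip, hipc, hPi0.trans h5, fun j hj => ?_⟩⟩
        by_cases hcj : 0 < c j
        · have := hipmin j hj hcj
          rwa [le_div_iff₀ hcj] at this
        · exact (mul_le_mul_of_nonpos_right h5 (not_lt.1 hcj)).trans (hPiQ j hj)
    have e : (D.filter (fun i => 0 < c i ∧ P i)).card =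
        (D.filter (fun i => c i < 0 ∧ P i)).card := by
      rw [← card_pos, ← card_pos] at key
      omega
    rw [e, sub_self]

end comb

variable {V : Type*} [AddCommGroup V] [Module ℝ V] [DecidableEq V]

theorem dual_eq {D : Finset V} {lam : V → V →ᵃ[ℝ] ℝ} (h1 : ∀ v ∈ D, lam v v = 1)
    (h0 : ∀ v ∈ D, ∀ w ∈ D, w ≠ v → lam v w = 0) {w : V → ℝ} (hw : ∑ v ∈ D, w v = 1) {v : V}
    (hv : v ∈ D) : lam v (∑ u ∈ D, w u • u) = w v := by
  rw [map_comb _ _ _ hw, sum_eq_single v]
  · rw [h1 v hv, mul_one]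
  · intro b hb hne
    rw [h0 v hv b hb hne, mul_zero]
  · intro h
    exact absurd hv h

theorem dual_sum {D : Finset V} {lam : V → V →ᵃ[ℝ] ℝ} (h1 : ∀ v ∈ D, lam v v = 1)
    (h0 : ∀ v ∈ D, ∀ w ∈ D, w ≠ v → lam v w = 0) {x : V} (hx : x ∈ Aff D) :
    ∑ v ∈ D, lam v x = 1 ∧ ∑ v ∈ D, lam v x • v = x := by
  obtain ⟨w, hw1, hw2⟩ := hx
  have e : ∀ v ∈ D, lam v x = w v := fun v hv => by rw [← hw2]; exact dual_eq h1 h0 hw1 hv
  constructor
  · rw [sum_congr rfl e, hw1]
  · rw [sum_congr rfl fun v hv => by rw [e v hv], hw2]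

theorem mem_conv_iff {D : Finset V} {lam : V → V →ᵃ[ℝ] ℝ} (h1 : ∀ v ∈ D, lam v v = 1)
    (h0 : ∀ v ∈ D, ∀ w ∈ D, w ≠ v → lam v w = 0) {x : V} (hx : x ∈ Aff D) :
    x ∈ convexHull ℝ (D : Set V) ↔ ∀ v ∈ D, 0 ≤ lam v x := by
  rw [Finset.mem_convexHull']
  constructor
  · rintro ⟨w, hw0, hw1, hw2⟩ v hv
    rw [← hw2, dual_eq h1 h0 hw1 hv]
    exact hw0 v hv
  · intro h
    obtain ⟨h3, h4⟩ := dual_sum h1 h0 hx
    exact ⟨fun v => lam v x, h, h3, h4⟩

/-- membership in the simplex in which the vertex `i` is replaced by `s` -/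
theorem mem_replace_iff {D : Finset V} {lam : V → V →ᵃ[ℝ] ℝ} (h1 : ∀ v ∈ D, lam v v = 1)
    (h0 : ∀ v ∈ D, ∀ w ∈ D, w ≠ v → lam v w = 0) {s : V} (hs : s ∈ Aff D) (hsD : s ∉ D) {i : V}
    (hi : i ∈ D) (hci : lam i s ≠ 0) {x : V} (hx : x ∈ Aff D) :
    x ∈ convexHull ℝ ((insert s (D.erase i) : Finset V) : Set V) ↔
      0 ≤ lam i x / lam i s ∧ ∀ j ∈ D, lam i x / lam i s * lam j s ≤ lam j x := by
  have hs' : s ∉ D.erase i := fun h => hsD (mem_of_mem_erase h)
  obtain ⟨hc1, hc2⟩ := dual_sum h1 h0 hs
  obtain ⟨hx1, hx2⟩ := dual_sum h1 h0 hx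
  have hsplit1 : ∀ f : V → ℝ, ∑ v ∈ D, f v = f i + ∑ v ∈ D.erase i, f v := fun f =>
    (add_sum_erase D f hi).symm
  have hsplit2 : ∀ f : V → V, ∑ v ∈ D, f v = f i + ∑ v ∈ D.erase i, f v := fun f =>
    (add_sum_erase D f hi).symm
  rw [Finset.mem_convexHull']
  constructor
  · rintro ⟨w, hw0, hw1, hw2⟩
    have key : ∀ j ∈ D, lam j x = w s * lam j s + (if j = i then 0 else w j) := by
      intro j hj
      rw [← hw2, map_comb _ _ _ hw1, sum_insert hs']
      congr 1
      by_cases hji : j = i
      · rw [if_pos hji]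
        apply sum_eq_zero
        intro v hv
        rw [hji, h0 i hi v (mem_of_mem_erase hv) (ne_of_mem_erase hv), mul_zero]
      · rw [if_neg hji, sum_eq_single j]
        · rw [h1 j hj, mul_one]
        · intro b hb hne
          rw [h0 j hj b (mem_of_mem_erase hb) hne, mul_zero]
        · intro h
          exact absurd (mem_erase.2 ⟨hji, hj⟩) h
    have hti : lam i x / lam i s = w s := by
      rw [key i hi, if_pos rfl, add_zero, mul_div_cancel_right₀ _ hci]
    rw [hti]
    refine ⟨hw0 s (mem_insert_self _ _), fun j hj => ?_⟩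
    rw [key j hj]
    by_cases hji : j = i
    · rw [if_pos hji, add_zero]
    · rw [if_neg hji]
      have := hw0 j (mem_insert_of_mem (mem_erase.2 ⟨hji, hj⟩))
      linarith
  · rintro ⟨ht, hj⟩
    set t := lam i x / lam i s with htdef
    have hti : t * lam i s = lam i x := div_mul_cancel₀ _ hci
    refine ⟨fun v => if v = s then t else lam v x - t * lam v s, ?_, ?_, ?_⟩
    · intro v hv
      rw [mem_insert] at hv
      beta_reduce
      by_cases hvs : v = s
      · rw [if_pos hvs]
        exact ht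
      · rw [if_neg hvs]
        have hvD : v ∈ D := mem_of_mem_erase (hv.resolve_left hvs)
        have := hj v hvD
        linarith
    · rw [sum_insert hs']
      beta_reduce
      rw [if_pos rfl]
      have e : ∑ v ∈ D.erase i, (if v = s then t else lam v x - t * lam v s) =
          ∑ v ∈ D.erase i, (lam v x - t * lam v s) := by
        apply sum_congr rfl
        intro v hv
        rw [if_neg]
        rintro rfl
        exact hs' hv
      rw [e, sum_sub_distrib, ← mul_sum]
      have e1 := hsplit1 (fun v => lam v x)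
      have e2 := hsplit1 (fun v => lam v s)
      beta_reduce at e1 e2
      rw [hx1] at e1
      rw [hc1] at e2
      have e3 : ∑ v ∈ D.erase i, lam v x = 1 - lam i x := by linarith
      have e4 : ∑ v ∈ D.erase i, lam v s = 1 - lam i s := by linarith
      rw [e3, e4]
      linear_combination hti
    · rw [sum_insert hs']
      beta_reduce
      rw [if_pos rfl]
      have e : ∑ v ∈ D.erase i, (if v = s then t else lam v x - t * lam v s) • v =
          ∑ v ∈ D.erase i, lam v x • v - t • ∑ v ∈ D.erase i, lam v s • v := by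
        rw [smul_sum, ← sum_sub_distrib]
        apply sum_congr rfl
        intro v hv
        rw [if_neg, sub_smul, mul_smul]
        rintro rfl
        exact hs' hv
      rw [e]
      have e1 := hsplit2 (fun v => lam v x • v)
      have e2 := hsplit2 (fun v => lam v s • v)
      beta_reduce at e1 e2
      rw [hx2] at e1
      rw [hc2] at e2
      have e3 : ∑ v ∈ D.erase i, lam v x • v = x - lam i x • i := eq_sub_of_add_eq' e1.symm
      have e4 : ∑ v ∈ D.erase i, lam v s • v = s - lam i s • i := eq_sub_of_add_eq' e2.symm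
      rw [e3, e4, smul_sub, smul_smul, hti]
      abel

/-- the cone decomposition of a full simplex -/
theorem cone_decomposition {S D : Finset V} (hD : Full S D) {s : V} (hs : s ∈ S) (hsD : s ∉ D) :
    ∃ (I : Finset V) (e : V → ℤ), (∀ i ∈ I, i ∈ D ∧ Full S (insert s (D.erase i))) ∧
      AA (Aff S) (fun x => ind D x = ∑ i ∈ I, (e i : ℝ) * ind (insert s (D.erase i)) x) := by
  classical
  choose! lam h1 h0 using hD.2.1
  have hsA : s ∈ Aff D := hD.2.2 s hs
  obtain ⟨hc1, hc2⟩ := dual_sum h1 h0 hsA
  refine ⟨D.filter (fun i => lam i s ≠ 0), fun i => if 0 < lam i s then 1 else -1, ?_, ?_⟩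
  · intro i hi
    rw [mem_filter] at hi
    obtain ⟨hi, hci⟩ := hi
    refine ⟨hi, ?_, ?_, ?_⟩
    · intro v hv
      rw [mem_insert] at hv
      rcases hv with rfl | hv
      · exact hs
      · exact hD.1 (mem_of_mem_erase hv)
    · apply Good.insert (h := (lam i s)⁻¹ • lam i) (hD.2.1.mono (erase_subset i D))
      · simp [hci]
      · intro v hv
        have := h0 i hi v (mem_of_mem_erase hv) (ne_of_mem_erase hv)
        simp [this]
    · intro x hx
      refine Aff_trans (D := D) ?_ (hD.2.2 x hx)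
      intro v hv
      by_cases hvi : v = i
      · have hs' : s ∉ D.erase i := fun h => hsD (mem_of_mem_erase h)
        rw [hvi]
        refine ⟨fun u => if u = s then (lam i s)⁻¹ else -(lam i s)⁻¹ * lam u s, ?_, ?_⟩
        · rw [sum_insert hs']
          beta_reduce
          rw [if_pos rfl]
          have e : ∑ v ∈ D.erase i, (if v = s then (lam i s)⁻¹ else -(lam i s)⁻¹ * lam v s) =
              -(lam i s)⁻¹ * ∑ v ∈ D.erase i, lam v s := by
            rw [mul_sum]
            apply sum_congr rfl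
            intro v hv
            rw [if_neg]
            rintro rfl
            exact hs' hv
          have e2 := (add_sum_erase D (fun v => lam v s) hi).symm
          beta_reduce at e2
          rw [hc1] at e2
          have e4 : ∑ v ∈ D.erase i, lam v s = 1 - lam i s := by linarith
          rw [e, e4]
          field_simp
          ring
        · rw [sum_insert hs']
          beta_reduce
          rw [if_pos rfl]
          have e : ∑ v ∈ D.erase i, (if v = s then (lam i s)⁻¹ else -(lam i s)⁻¹ * lam v s) • v =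
              -((lam i s)⁻¹ • ∑ v ∈ D.erase i, lam v s • v) := by
            rw [smul_sum, ← sum_neg_distrib]
            apply sum_congr rfl
            intro v hv
            rw [if_neg, neg_mul, neg_smul, mul_smul]
            rintro rfl
            exact hs' hv
          have e2 := (add_sum_erase D (fun v => lam v s • v) hi).symm
          beta_reduce at e2
          rw [hc2] at e2
          have e4 : ∑ v ∈ D.erase i, lam v s • v = s - lam i s • i :=
            eq_sub_of_add_eq' e2.symm
          rw [e, e4, smul_sub, smul_smul, inv_mul_cancel₀ hci, one_smul]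
          abel
      · exact subset_Aff (mem_insert_of_mem (mem_erase.2 ⟨hvi, hv⟩))
  · -- generic points
    have g1 : AA (Aff S) (fun x => ∀ i ∈ D, lam i x ≠ 0) := by
      apply AA.finset
      intro i hi
      apply AA.ne
      exact ⟨i, hD.aff' (subset_Aff hi), by rw [h1 i hi]; exact one_ne_zero⟩
    have g2 : AA (Aff S) (fun x => ∀ i ∈ D, ∀ j ∈ D, i ≠ j → lam i s ≠ 0 → lam j s ≠ 0 →
        lam i x / lam i s ≠ lam j x / lam j s) := by
      apply AA.finset
      intro i hi
      apply AA.finset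
      intro j hj
      by_cases hij : i = j
      · exact AA.of_forall fun x _ h => absurd hij h
      by_cases hci : lam i s = 0
      · exact AA.of_forall fun x _ _ h => absurd hci h
      by_cases hcj : lam j s = 0
      · exact AA.of_forall fun x _ _ _ h => absurd hcj h
      have := AA.ne (A := Aff S) (lam j s • lam i - lam i s • lam j)
        ⟨i, hD.aff' (subset_Aff hi), by simp [h1 i hi, h0 j hj i hi hij, hcj]⟩
      refine this.mono fun x _ hx _ _ _ he => hx ?_
      rw [div_eq_div_iff hci hcj] at he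
      have : lam j s * lam i x - lam i s * lam j x = 0 := by linarith
      simpa using this
    refine (g1.and g2).mono fun x hx ⟨hx0, hgen⟩ => ?_
    have hxD : x ∈ Aff D := hD.aff hx
    have := comb_identity D (fun i => lam i s) (fun i => lam i x) hc1 hx0 hgen
    unfold ind
    rw [if_congr (mem_conv_iff h1 h0 hxD) rfl rfl, this]
    apply sum_congr rfl
    intro i hi
    rw [mem_filter] at hi
    have hiff := mem_replace_iff h1 h0 hsA hsD hi.1 hi.2 hxD
    beta_reduce
    congr 1
    by_cases hq : x ∈ convexHull ℝ ((insert s (D.erase i) : Finset V) : Set V)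
    · rw [if_pos hq]
      exact if_pos (hiff.1 hq)
    · rw [if_neg hq]
      exact if_neg (fun h => hq (hiff.2 h))

end Pool.Agent.Q258.SimpLat
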