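import Pool.Agent.Q258.SimpLat.Basic

set_option autoImplicit false

/-!
# The jump across a hyperplane
-/

namespace Pool.Agent.Q258.SimpLat

open Finset Filter Topology

variable {V : Type*} [AddCommGroup V] [Module ℝ V] [DecidableEq V]

/-- the point with parameter `r` on the line through `s` and `y` -/
noncomputable def ray (s y : V) (r : ℝ) : V := (1 - r) • s + r • y

theorem ray_map (φ : V →ᵃ[ℝ] ℝ) (s y : V) (r : ℝ) :
    φ (ray s y r) = (1 - r) * φ s + r * φ y := map_two φ _ _ _ _ (by ring)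

theorem ray_sub (s y : V) (r : ℝ) : ray s y r - s = r • (y - s) := by
  unfold ray
  rw [smul_sub, sub_smul, one_smul]
  abel

theorem ray_one (s y : V) : ray s y 1 = y := by
  unfold ray
  simp

theorem ray_ne {s y : V} (h : y ≠ s) {r : ℝ} (hr : 0 < r) : ray s y r ≠ s := by
  intro he
  have h1 := ray_sub s y r
  rw [he, sub_self] at h1
  rcases smul_eq_zero.1 h1.symm with h2 | h2
  · exact hr.ne' h2
  · exact h (sub_eq_zero.1 h2)

theorem ray_prj {s y : V} {h : V →ᵃ[ℝ] ℝ} (h1 : h s = 1) {r : ℝ} (hr : 0 < r) :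
    prj s h (ray s y r) = prj s h y := by
  unfold prj
  rw [ray_map, h1, ray_sub, smul_smul]
  congr 2
  rw [show 1 - ((1 - r) * 1 + r * h y) = r * (1 - h y) by ring, mul_inv,
    mul_comm, ← mul_assoc, mul_inv_cancel₀ hr.ne', one_mul]

/-- a cone over a simplex in another hyperplane is locally constant along the ray -/
theorem ind_ray_const {F : Finset V} (hF : F.Nonempty) {s : V} {h : V →ᵃ[ℝ] ℝ} (h1 : h s = 1)
    (h0 : ∀ v ∈ F, h v = 0) {y : V} (hy : y ≠ s) (hhy : h y ≠ 0) :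
    ∀ᶠ r in 𝓝 (1 : ℝ), ind (insert s F) (ray s y r) = ind (insert s F) y := by
  have hpos : ∀ᶠ r in 𝓝 (1 : ℝ), 0 < r := lt_mem_nhds one_pos
  have hcont : Tendsto (fun r : ℝ => r * (1 - h y)) (𝓝 1) (𝓝 (1 - h y)) := by
    have : Continuous (fun r : ℝ => r * (1 - h y)) := by fun_prop
    simpa using this.tendsto 1
  have e1 : ∀ r : ℝ, 0 < r → ind (insert s F) (ray s y r) =
      if 0 ≤ h (ray s y r) ∧ h (ray s y r) < 1 then ind F (prj s h y) else 0 := by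
    intro r hr
    rw [ind_insert hF h1 h0 (ray_ne hy hr)]
    unfold cone
    rw [ray_prj h1 hr]
  have hhr : ∀ r : ℝ, h (ray s y r) = 1 - r * (1 - h y) := by
    intro r
    rw [ray_map, h1]
    ring
  have ey : ind (insert s F) y = if 0 ≤ h y ∧ h y < 1 then ind F (prj s h y) else 0 := by
    rw [ind_insert hF h1 h0 hy]
    rfl
  rcases lt_trichotomy (h y) 0 with hlt | heq | hgt
  · -- `h y < 0`
    have h3 : ∀ᶠ r in 𝓝 (1 : ℝ), 1 < r * (1 - h y) := hcont.eventually (lt_mem_nhds (by linarith))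
    filter_upwards [hpos, h3] with r hr hr3
    rw [e1 r hr, ey, if_neg (by rw [hhr]; intro hh; linarith [hh.1]),
      if_neg (by intro hh; linarith [hh.1])]
  · exact absurd heq hhy
  · by_cases h4 : h y < 1
    · have h3 : ∀ᶠ r in 𝓝 (1 : ℝ), r * (1 - h y) < 1 := hcont.eventually (gt_mem_nhds (by linarith))
      filter_upwards [hpos, h3] with r hr hr3
      have h5 : 0 < r * (1 - h y) := mul_pos hr (by linarith)
      rw [e1 r hr, ey, if_pos (by rw [hhr]; constructor <;> linarith),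
        if_pos ⟨hgt.le, h4⟩]
    · filter_upwards [hpos] with r hr
      have h5 : r * (1 - h y) ≤ 0 := mul_nonpos_of_nonneg_of_nonpos hr.le (by linarith)
      rw [e1 r hr, ey, if_neg (by rw [hhr]; intro hh; linarith [hh.2]),
        if_neg (fun hh => h4 hh.2)]

theorem jump_integral {S : Finset V} {s : V} (hs : s ∈ S) {𝓑 : Finset (Finset V)}
    (h𝓑 : ∀ F ∈ 𝓑, F.Nonempty ∧ s ∉ F ∧ Full S (insert s F)) (c : Finset V → ℝ)
    (H : AA (Aff S) (fun x => ∃ z : ℤ, ∑ F ∈ 𝓑, c F * ind (insert s F) x = z)) {F₀ : Finset V}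
    (hF₀ : F₀ ∈ 𝓑) {𝓒 : Finset (Finset V)} (h𝓒 : ∀ F, F ∈ 𝓒 ↔ F ∈ 𝓑 ∧ ∀ v ∈ F, v ∈ Aff F₀) :
    AA (Aff F₀) (fun y => ∃ z : ℤ, ∑ F ∈ 𝓒, c F * ind F y = z) := by
  classical
  obtain ⟨Φ, hΦ, hp⟩ := H
  -- the functionals of the hyperplanes
  have hfun : ∀ F ∈ 𝓑, ∃ h : V →ᵃ[ℝ] ℝ, h s = 1 ∧ ∀ v ∈ F, h v = 0 := by
    intro F hF
    obtain ⟨_, h2, h3⟩ := h𝓑 F hF
    obtain ⟨φ, hφ1, hφ2⟩ := h3.2.1 s (mem_insert_self s F)
    exact ⟨φ, hφ1, fun v hv => hφ2 v (mem_insert_of_mem hv) (fun he => h2 (he ▸ hv))⟩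
  choose! h h1 h0 using hfun
  obtain ⟨hne₀, hs₀, hfull₀⟩ := h𝓑 F₀ hF₀
  have hsubA : ∀ a ∈ Aff F₀, a ∈ Aff S := fun a ha =>
    hfull₀.aff' (Aff_trans (fun v hv => subset_Aff (mem_insert_of_mem hv)) ha)
  have hsA : s ∈ Aff S := subset_Aff hs
  have hout : ∀ F ∈ 𝓑, F ∉ 𝓒 → ∃ a ∈ Aff F₀, h F a ≠ 0 := by
    intro F hF hFC
    by_contra hcon
    push Not at hcon
    apply hFC
    rw [h𝓒]
    refine ⟨hF, fun v hv => ?_⟩
    have hvS : v ∈ Aff (insert s F₀) :=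
      hfull₀.aff (subset_Aff ((h𝓑 F hF).2.2.1 (mem_insert_of_mem hv)))
    exact mem_Aff_of_zero (h1 F hF) (fun w hw => hcon w (subset_Aff hw)) hvS (h0 F hF v hv)
  -- generic points of the hyperplane
  have g1 : AA (Aff F₀) (fun y => ∀ φ ∈ Φ.filter (fun φ => ∃ a ∈ Aff F₀, φ a ≠ 0), φ y ≠ 0) := by
    apply AA.finset
    intro φ hφ
    rw [mem_filter] at hφ
    exact AA.ne φ hφ.2
  have g2 : AA (Aff F₀) (fun y => ∀ F ∈ 𝓑.filter (fun F => F ∉ 𝓒), h F y ≠ 0) := by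
    apply AA.finset
    intro F hF
    rw [mem_filter] at hF
    exact AA.ne _ (hout F hF.1 hF.2)
  refine (g1.and g2).mono fun y hy ⟨hy1, hy2⟩ => ?_
  have hyA := hsubA y hy
  have hy0 : h F₀ y = 0 := map_Aff (h0 F₀ hF₀) hy
  have hys : y ≠ s := by
    rintro rfl
    rw [h1 F₀ hF₀] at hy0
    exact one_ne_zero hy0
  have hrayA : ∀ r, ray s y r ∈ Aff S := fun r => Aff_two (by ring) hsA hyA
  -- the functionals do not vanish near `y` on the ray
  have hΦr : ∀ φ ∈ Φ, ∀ᶠ r in 𝓝[≠] (1 : ℝ), φ (ray s y r) ≠ 0 := by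
    intro φ hφ
    by_cases hφy : φ y = 0
    · have hzero : ∀ a ∈ Aff F₀, φ a = 0 := by
        by_contra hcon
        push Not at hcon
        exact hy1 φ (mem_filter.2 ⟨hφ, hcon⟩) hφy
      have hφs : φ s ≠ 0 := by
        intro hφs
        obtain ⟨a, ha, hane⟩ := hΦ φ hφ
        apply hane
        apply map_Aff (D := insert s F₀) _ (hfull₀.aff ha)
        intro v hv
        rw [mem_insert] at hv
        rcases hv with rfl | hv
        · exact hφs
        · exact hzero v (subset_Aff hv)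
      filter_upwards [self_mem_nhdsWithin] with r hr
      rw [ray_map, hφy, mul_zero, add_zero]
      have : (1 : ℝ) - r ≠ 0 := fun hh => hr (by
        show r = 1
        linarith)
      exact mul_ne_zero this hφs
    · have hcont : Continuous (fun r : ℝ => (1 - r) * φ s + r * φ y) := by fun_prop
      have : Tendsto (fun r : ℝ => (1 - r) * φ s + r * φ y) (𝓝 1) (𝓝 (φ y)) := by
        simpa using hcont.tendsto 1
      have h3 := (this.eventually_ne hφy)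
      have h4 := h3.filter_mono (nhdsWithin_le_nhds (s := {1}ᶜ))
      filter_upwards [h4] with r hr
      rw [ray_map]
      exact hr
  have hΦall : ∀ᶠ r in 𝓝[≠] (1 : ℝ), ∀ φ ∈ Φ, φ (ray s y r) ≠ 0 :=
    (Filter.eventually_all_finset Φ).2 hΦr
  have hcst : ∀ᶠ r in 𝓝 (1 : ℝ), ∀ F ∈ 𝓑.filter (fun F => F ∉ 𝓒),
      ind (insert s F) (ray s y r) = ind (insert s F) y := by
    rw [Filter.eventually_all_finset]
    intro F hF
    have hF' := mem_filter.1 hF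
    exact ind_ray_const (h𝓑 F hF'.1).1 (h1 F hF'.1) (h0 F hF'.1) hys (hy2 F hF)
  have hpos : ∀ᶠ r in 𝓝 (1 : ℝ), 0 < r := lt_mem_nhds one_pos
  -- the cones over the simplices of the hyperplane
  have hin : ∀ F ∈ 𝓒, ∀ r : ℝ, 0 < r →
      ind (insert s F) (ray s y r) = if r ≤ 1 then ind F y else 0 := by
    intro F hF r hr
    have hF' := (h𝓒 F).1 hF
    have h0' : ∀ v ∈ F, h F₀ v = 0 := fun v hv => map_Aff (h0 F₀ hF₀) (hF'.2 v hv)
    rw [ind_insert (h𝓑 F hF'.1).1 (h1 F₀ hF₀) h0' (ray_ne hys hr)]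
    unfold cone
    rw [ray_prj (h1 F₀ hF₀) hr, ray_map, h1 F₀ hF₀, hy0]
    have e : prj s (h F₀) y = y := by
      unfold prj
      rw [hy0]
      simp
    rw [e]
    by_cases hr1 : r ≤ 1
    · rw [if_pos hr1, if_pos (by constructor <;> linarith)]
    · rw [if_neg hr1, if_neg (fun hh => by linarith [hh.1])]
  -- two parameters
  have hlt : ∀ᶠ r in 𝓝[<] (1 : ℝ), (∀ φ ∈ Φ, φ (ray s y r) ≠ 0) ∧
      (∀ F ∈ 𝓑.filter (fun F => F ∉ 𝓒), ind (insert s F) (ray s y r) = ind (insert s F) y) ∧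
      0 < r ∧ r < 1 := by
    have a1 := hΦall.filter_mono (nhdsWithin_mono (1 : ℝ) (fun r (hr : r ∈ Set.Iio 1) => ne_of_lt hr))
    have a2 := hcst.filter_mono (nhdsWithin_le_nhds (s := Set.Iio (1 : ℝ)))
    have a3 := hpos.filter_mono (nhdsWithin_le_nhds (s := Set.Iio (1 : ℝ)))
    filter_upwards [a1, a2, a3, self_mem_nhdsWithin] with r r1 r2 r3 r4
    exact ⟨r1, r2, r3, r4⟩
  have hgt : ∀ᶠ r in 𝓝[>] (1 : ℝ), (∀ φ ∈ Φ, φ (ray s y r) ≠ 0) ∧
      (∀ F ∈ 𝓑.filter (fun F => F ∉ 𝓒), ind (insert s F) (ray s y r) = ind (insert s F) y) ∧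
      0 < r ∧ 1 < r := by
    have a1 := hΦall.filter_mono (nhdsWithin_mono (1 : ℝ) (fun r (hr : r ∈ Set.Ioi 1) => ne_of_gt hr))
    have a2 := hcst.filter_mono (nhdsWithin_le_nhds (s := Set.Ioi (1 : ℝ)))
    have a3 := hpos.filter_mono (nhdsWithin_le_nhds (s := Set.Ioi (1 : ℝ)))
    filter_upwards [a1, a2, a3, self_mem_nhdsWithin] with r r1 r2 r3 r4
    exact ⟨r1, r2, r3, r4⟩
  obtain ⟨r, hr1, hr2, hr3, hr4⟩ := hlt.exists
  obtain ⟨r', hr1', hr2', hr3', hr4'⟩ := hgt.exists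
  obtain ⟨z, hz⟩ := hp _ (hrayA r) hr1
  obtain ⟨z', hz'⟩ := hp _ (hrayA r') hr1'
  have hsplit : ∀ f : Finset V → ℝ, ∑ F ∈ 𝓑, f F =
      ∑ F ∈ 𝓒, f F + ∑ F ∈ 𝓑.filter (fun F => F ∉ 𝓒), f F := by
    intro f
    rw [← sum_filter_add_sum_filter_not 𝓑 (fun F => F ∈ 𝓒) f]
    congr 2
    ext F
    rw [mem_filter, h𝓒]
    tauto
  rw [hsplit] at hz hz'
  have e1 : ∑ F ∈ 𝓒, c F * ind (insert s F) (ray s y r) = ∑ F ∈ 𝓒, c F * ind F y := by
    apply sum_congr rfl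
    intro F hF
    rw [hin F hF r hr3, if_pos hr4.le]
  have e2 : ∑ F ∈ 𝓒, c F * ind (insert s F) (ray s y r') = 0 := by
    apply sum_eq_zero
    intro F hF
    rw [hin F hF r' hr3', if_neg (not_le.2 hr4'), mul_zero]
  have e3 : ∑ F ∈ 𝓑.filter (fun F => F ∉ 𝓒), c F * ind (insert s F) (ray s y r) =
      ∑ F ∈ 𝓑.filter (fun F => F ∉ 𝓒), c F * ind (insert s F) (ray s y r') := by
    apply sum_congr rfl
    intro F hF
    rw [hr2 F hF, hr2' F hF]
  refine ⟨z - z', ?_⟩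
  push_cast
  rw [← hz, ← hz', e1, e2, e3]
  ring

end Pool.Agent.Q258.SimpLat
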