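import Pool.Agent.Q258.SimpLat.Cone
import Pool.Agent.Q258.SimpLat.Jump

set_option autoImplicit false

/-!
# A basis of simplices with integral coordinates
-/

namespace Pool.Agent.Q258.SimpLat

open Finset

variable {V : Type*} [AddCommGroup V] [Module ℝ V] [DecidableEq V]

theorem Aff_empty : (Aff (∅ : Finset V)) = ∅ := by
  ext x
  simp [Aff]

theorem Aff_singleton (s : V) : (Aff ({s} : Finset V)) = {s} := by
  ext x
  constructor
  · rintro ⟨w, h1, h2⟩
    rw [sum_singleton] at h1 h2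
    rw [h1, one_smul] at h2
    exact h2.symm
  · intro h
    rw [Set.mem_singleton_iff] at h
    rw [h]
    exact subset_Aff (mem_singleton_self s)

theorem ind_singleton (s : V) : ind ({s} : Finset V) s = 1 := by
  unfold ind
  rw [if_pos]
  simp

theorem cone_closure {F : Finset V} {s : V} {h : V →ᵃ[ℝ] ℝ} (h1 : h s = 1)
    {B' : Set (Finset V)} {B : Set (Finset V)}
    (hB : ∀ F' ∈ B', F'.Nonempty ∧ (∀ v ∈ F', h v = 0) ∧ insert s F' ∈ B) {g : V → ℝ}
    (hg : g ∈ AddSubgroup.closure (ind '' B')) :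
    ∃ g' ∈ AddSubgroup.closure (ind '' B), ∀ x, x ≠ s → g' x = cone s h g x := by
  induction hg using AddSubgroup.closure_induction with
  | mem g hg =>
    obtain ⟨F', hF', rfl⟩ := hg
    obtain ⟨h2, h3, h4⟩ := hB F' hF'
    exact ⟨ind (insert s F'), AddSubgroup.subset_closure ⟨_, h4, rfl⟩,
      fun x hx => ind_insert h2 h1 h3 hx⟩
  | zero =>
    refine ⟨0, AddSubgroup.zero_mem _, fun x _ => ?_⟩
    unfold cone
    simp
  | add g₁ g₂ _ _ ih1 ih2 =>
    obtain ⟨a, ha, ha'⟩ := ih1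
    obtain ⟨b, hb, hb'⟩ := ih2
    refine ⟨a + b, AddSubgroup.add_mem _ ha hb, fun x hx => ?_⟩
    rw [Pi.add_apply, ha' x hx, hb' x hx]
    unfold cone
    split_ifs
    · rfl
    · simp
  | neg g _ ih =>
    obtain ⟨a, ha, ha'⟩ := ih
    refine ⟨-a, AddSubgroup.neg_mem _ ha, fun x hx => ?_⟩
    rw [Pi.neg_apply, ha' x hx]
    unfold cone
    split_ifs
    · rfl
    · simp

theorem main_basis : ∀ (n : ℕ) (S : Finset V), S.card = n → ∃ B : Finset (Finset V),
    (∀ D ∈ B, Full S D) ∧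
    (∀ c : Finset V → ℝ, AA (Aff S) (fun x => ∃ z : ℤ, ∑ D ∈ B, c D * ind D x = z) →
      ∀ D ∈ B, ∃ z : ℤ, c D = z) ∧
    (∀ D, Full S D → ∃ g ∈ AddSubgroup.closure (ind '' (B : Set (Finset V))),
      AA (Aff S) (fun x => ind D x = g x)) := by
  classical
  intro n
  induction n using Nat.strong_induction_on with
  | _ n ih =>
  intro S hSn
  rcases S.eq_empty_or_nonempty with rfl | ⟨s, hs⟩
  · refine ⟨∅, by simp, by simp, fun D hD => ⟨0, AddSubgroup.zero_mem _, AA.of_forall fun x hx => ?_⟩⟩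
    rw [Aff_empty] at hx
    exact absurd hx (Set.notMem_empty x)
  by_cases hSs : S = {s}
  · subst hSs
    have hfull : Full ({s} : Finset V) {s} := by
      refine ⟨Finset.Subset.refl _, ?_, fun t ht => subset_Aff ht⟩
      intro v hv
      refine ⟨AffineMap.const ℝ V (1 : ℝ), by simp, fun w hw hne => ?_⟩
      rw [mem_singleton] at hv hw
      exact absurd (hw.trans hv.symm) hne
    refine ⟨{{s}}, ?_, ?_, ?_⟩
    · intro D hD
      rw [mem_singleton] at hD
      rw [hD]
      exact hfull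
    · rintro c ⟨Φ, hΦ, hp⟩ D hD
      rw [mem_singleton] at hD
      subst hD
      have hss : s ∈ Aff ({s} : Finset V) := subset_Aff (mem_singleton_self s)
      obtain ⟨z, hz⟩ := hp s hss (by
        intro φ hφ
        obtain ⟨a, ha, hne⟩ := hΦ φ hφ
        rw [Aff_singleton, Set.mem_singleton_iff] at ha
        rwa [ha] at hne)
      rw [sum_singleton, ind_singleton, mul_one] at hz
      exact ⟨z, hz⟩
    · intro D hD
      have hDs : D = {s} := by
        rcases Finset.subset_singleton_iff.1 hD.1 with h | h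
        · have := hD.2.2 s (mem_singleton_self s)
          rw [h, Aff_empty] at this
          exact absurd this (Set.notMem_empty s)
        · exact h
      rw [hDs]
      exact ⟨ind {s}, AddSubgroup.subset_closure ⟨{s}, by simp, rfl⟩, AA.of_forall fun x _ => rfl⟩
  -- the general case
  set 𝓕 : Finset (Finset V) := S.powerset.filter (fun F => s ∉ F ∧ Full S (insert s F)) with h𝓕
  have mem𝓕 : ∀ F, F ∈ 𝓕 ↔ s ∉ F ∧ Full S (insert s F) := by
    intro F
    rw [h𝓕, mem_filter, mem_powerset]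
    constructor
    · exact fun h => h.2
    · exact fun h => ⟨(subset_insert s F).trans h.2.1, h⟩
  have hne : ∀ F ∈ 𝓕, F.Nonempty := by
    intro F hF
    rw [nonempty_iff_ne_empty]
    rintro rfl
    have h := ((mem𝓕 ∅).1 hF).2
    apply hSs
    ext t
    rw [mem_singleton]
    constructor
    · intro ht
      have := h.2.2 t ht
      rw [insert_empty_eq, Aff_singleton] at this
      exact this
    · rintro rfl
      exact hs
  have hfun : ∀ F ∈ 𝓕, ∃ h : V →ᵃ[ℝ] ℝ, h s = 1 ∧ ∀ v ∈ F, h v = 0 := by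
    intro F hF
    obtain ⟨h2, h3⟩ := (mem𝓕 F).1 hF
    obtain ⟨φ, hφ1, hφ2⟩ := h3.2.1 s (mem_insert_self s F)
    exact ⟨φ, hφ1, fun v hv => hφ2 v (mem_insert_of_mem hv) (fun he => h2 (he ▸ hv))⟩
  choose! h h1 h0 using hfun
  set cl : Finset V → Finset V := fun F => S.filter (fun t => t ∈ Aff F) with hcl
  have memcl : ∀ F t, t ∈ cl F ↔ t ∈ S ∧ t ∈ Aff F := fun F t => by rw [hcl, mem_filter]
  have hscl : ∀ F ∈ 𝓕, s ∉ cl F := by
    intro F hF hmem
    have h3 := map_Aff (h0 F hF) ((memcl F s).1 hmem).2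
    rw [h1 F hF] at h3
    exact one_ne_zero h3
  have hlt : ∀ F ∈ 𝓕, (cl F).card < n := by
    intro F hF
    rw [← hSn]
    apply card_lt_card
    rw [ssubset_iff_of_subset (filter_subset _ _)]
    exact ⟨s, hs, hscl F hF⟩
  have hfullcl : ∀ F ∈ 𝓕, Full (cl F) F := by
    intro F hF
    obtain ⟨h2, h3⟩ := (mem𝓕 F).1 hF
    refine ⟨fun v hv => (memcl F v).2 ⟨h3.1 (mem_insert_of_mem hv), subset_Aff hv⟩,
      h3.2.1.mono (subset_insert s F), fun t ht => ((memcl F t).1 ht).2⟩
  -- induction hypothesis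
  have IH : ∀ T : Finset V, T.card < n → ∃ B : Finset (Finset V),
    (∀ D ∈ B, Full T D) ∧
    (∀ c : Finset V → ℝ, AA (Aff T) (fun x => ∃ z : ℤ, ∑ D ∈ B, c D * ind D x = z) →
      ∀ D ∈ B, ∃ z : ℤ, c D = z) ∧
    (∀ D, Full T D → ∃ g ∈ AddSubgroup.closure (ind '' (B : Set (Finset V))),
      AA (Aff T) (fun x => ind D x = g x)) := fun T hT => ih T.card hT T rfl
  choose! Bs hB1 hB2 hB3 using IH
  -- simplices of the hyperplane sections
  have hext : ∀ F ∈ 𝓕, ∀ F' ∈ Bs (cl F), F' ∈ 𝓕 ∧ cl F' = cl F ∧ ∀ v ∈ F', v ∈ Aff F := by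
    intro F hF F' hF'
    have hfull := hB1 (cl F) (hlt F hF) F' hF'
    obtain ⟨h2, h3⟩ := (mem𝓕 F).1 hF
    have ha : ∀ v ∈ F', v ∈ Aff F := fun v hv => ((memcl F v).1 (hfull.1 hv)).2
    have hb : ∀ v ∈ F, v ∈ Aff F' := fun v hv => hfull.2.2 v ((hfullcl F hF).1 hv)
    refine ⟨(mem𝓕 F').2 ⟨fun hsF => hscl F hF (hfull.1 hsF), ?_, ?_, ?_⟩, ?_, ha⟩
    · intro v hv
      rw [mem_insert] at hv
      rcases hv with rfl | hv
      · exact hs
      · exact ((memcl F v).1 (hfull.1 hv)).1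
    · exact hfull.2.1.insert (h1 F hF) (fun v hv => map_Aff (h0 F hF) (ha v hv))
    · intro t ht
      refine Aff_trans ?_ (h3.2.2 t ht)
      intro v hv
      rw [mem_insert] at hv
      rcases hv with rfl | hv
      · exact subset_Aff (mem_insert_self _ _)
      · exact Aff_trans (fun u hu => subset_Aff (mem_insert_of_mem hu)) (hb v hv)
    · ext t
      rw [memcl, memcl]
      constructor
      · exact fun ht => ⟨ht.1, Aff_trans ha ht.2⟩
      · exact fun ht => ⟨ht.1, Aff_trans hb ht.2⟩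
  set 𝓑 : Finset (Finset V) := 𝓕.filter (fun F => F ∈ Bs (cl F)) with h𝓑
  have mem𝓑 : ∀ F, F ∈ 𝓑 ↔ F ∈ 𝓕 ∧ F ∈ Bs (cl F) := fun F => by rw [h𝓑, mem_filter]
  have hinj : Set.InjOn (fun F : Finset V => insert s F) (𝓑 : Set (Finset V)) := by
    intro F hF F' hF' he
    have hsF := ((mem𝓕 F).1 ((mem𝓑 F).1 hF).1).1
    have hsF' := ((mem𝓕 F').1 ((mem𝓑 F').1 hF').1).1
    have : (insert s F).erase s = (insert s F').erase s := by
      have he' : insert s F = insert s F' := he
      rw [he']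
    rwa [erase_insert hsF, erase_insert hsF'] at this
  have hAffcl : ∀ F ∈ 𝓕, Aff (cl F) = Aff F := fun F hF =>
    Set.ext fun x => ⟨fun hx => (hfullcl F hF).aff hx, fun hx => (hfullcl F hF).aff' hx⟩
  -- spanning, for simplices containing `s`
  have hspan1 : ∀ D, Full S D → s ∈ D →
      ∃ g ∈ AddSubgroup.closure (ind '' ((𝓑.image (fun F => insert s F) : Finset (Finset V)) :
        Set (Finset V))), AA (Aff S) (fun x => ind D x = g x) := by
    intro D hD hsD
    set F := D.erase s with hFdef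
    have hins : insert s F = D := insert_erase hsD
    have hF : F ∈ 𝓕 := (mem𝓕 F).2 ⟨notMem_erase s D, by rw [hins]; exact hD⟩
    obtain ⟨g, hg, hAA⟩ := hB3 (cl F) (hlt F hF) F (hfullcl F hF)
    rw [hAffcl F hF] at hAA
    obtain ⟨g', hg', hgg⟩ := cone_closure (F := F) (s := s) (h := h F) (h1 F hF)
      (B' := (Bs (cl F) : Set (Finset V)))
      (B := ((𝓑.image (fun F => insert s F) : Finset (Finset V)) : Set (Finset V))) (by
        intro F' hF'
        obtain ⟨a1, a2, a3⟩ := hext F hF F' hF'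
        refine ⟨hne F' a1, fun v hv => map_Aff (h0 F hF) (a3 v hv), ?_⟩
        rw [mem_coe, mem_image]
        exact ⟨F', (mem𝓑 F').2 ⟨a1, by rw [a2]; exact hF'⟩, rfl⟩) hg
    refine ⟨g', hg', ?_⟩
    have hAA2 := hAA.cone (h1 F hF) (h0 F hF) (hne F hF)
    rw [hins] at hAA2
    have hAffD : Aff D = Aff S := Set.ext fun x => ⟨fun hx => hD.aff' hx, fun hx => hD.aff hx⟩
    rw [hAffD] at hAA2
    have hgen : AA (Aff S) (fun x => x ≠ s) := by
      obtain ⟨v, hv⟩ := hne F hF
      have := AA.ne (A := Aff S) (AffineMap.const ℝ V (1 : ℝ) - h F)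
        ⟨v, subset_Aff (hD.1 (mem_of_mem_erase hv)), by simp [h0 F hF v hv]⟩
      refine this.mono fun x _ hx => ?_
      rintro rfl
      apply hx
      simp [h1 F hF]
    refine (hAA2.and hgen).mono fun x _ ⟨hx1, hx2⟩ => ?_
    rw [hgg x hx2, ← hx1, ← hins]
    exact ind_insert (hne F hF) (h1 F hF) (h0 F hF) hx2
  refine ⟨𝓑.image (fun F => insert s F), ?_, ?_, ?_⟩
  · intro D hD
    rw [mem_image] at hD
    obtain ⟨F, hF, rfl⟩ := hD
    exact ((mem𝓕 F).1 ((mem𝓑 F).1 hF).1).2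
  · intro c hc D hD
    rw [mem_image] at hD
    obtain ⟨F₀, hF₀, rfl⟩ := hD
    have hF₀𝓕 := ((mem𝓑 F₀).1 hF₀).1
    have hsum : ∀ x, ∑ D ∈ 𝓑.image (fun F => insert s F), c D * ind D x =
        ∑ F ∈ 𝓑, c (insert s F) * ind (insert s F) x := fun x => sum_image hinj
    simp_rw [hsum] at hc
    have hj := jump_integral hs (𝓑 := 𝓑) (fun F hF => by
      have hF' := ((mem𝓑 F).1 hF).1
      exact ⟨hne F hF', ((mem𝓕 F).1 hF').1, ((mem𝓕 F).1 hF').2⟩) (fun F => c (insert s F)) hc hF₀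
      (𝓒 := Bs (cl F₀)) (by
        intro F
        constructor
        · intro hF
          obtain ⟨a1, a2, a3⟩ := hext F₀ hF₀𝓕 F hF
          exact ⟨(mem𝓑 F).2 ⟨a1, by rw [a2]; exact hF⟩, a3⟩
        · rintro ⟨hF, hsub⟩
          have hF' := (mem𝓑 F).1 hF
          have hb : ∀ v ∈ F₀, v ∈ Aff F := by
            intro v hv
            have hvS : v ∈ Aff (insert s F) :=
              ((mem𝓕 F).1 hF'.1).2.aff (subset_Aff
                (((mem𝓕 F₀).1 hF₀𝓕).2.1 (mem_insert_of_mem hv)))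
            exact mem_Aff_of_zero (h1 F₀ hF₀𝓕) (fun w hw => map_Aff (h0 F₀ hF₀𝓕) (hsub w hw)) hvS
              (h0 F₀ hF₀𝓕 v hv)
          have hceq : cl F = cl F₀ := by
            ext t
            rw [memcl, memcl]
            constructor
            · exact fun ht => ⟨ht.1, Aff_trans hsub ht.2⟩
            · exact fun ht => ⟨ht.1, Aff_trans hb ht.2⟩
          rw [← hceq]
          exact hF'.2)
    rw [← hAffcl F₀ hF₀𝓕] at hj
    exact hB2 (cl F₀) (hlt F₀ hF₀𝓕) _ hj F₀ ((mem𝓑 F₀).1 hF₀).2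
  · intro D hD
    by_cases hsD : s ∈ D
    · exact hspan1 D hD hsD
    · obtain ⟨I, e, hI, hAA⟩ := cone_decomposition hD hs hsD
      have hex : ∀ i ∈ I, ∃ g ∈ AddSubgroup.closure (ind ''
          ((𝓑.image (fun F => insert s F) : Finset (Finset V)) : Set (Finset V))),
          AA (Aff S) (fun x => ind (insert s (D.erase i)) x = g x) :=
        fun i hi => hspan1 _ (hI i hi).2 (mem_insert_self _ _)
      choose! g hg1 hg2 using hex
      refine ⟨∑ i ∈ I, e i • g i, AddSubgroup.sum_mem _ fun i hi =>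
        AddSubgroup.zsmul_mem _ (hg1 i hi) _, ?_⟩
      have h3 := AA.finset I hg2
      refine (hAA.and h3).mono fun x _ ⟨hx1, hx2⟩ => ?_
      rw [hx1, Finset.sum_apply]
      apply sum_congr rfl
      intro i hi
      rw [hx2 i hi, Pi.smul_apply, zsmul_eq_mul]

end Pool.Agent.Q258.SimpLat
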