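import Pool.Agent.Q258.SimpLat.Main

set_option autoImplicit false

/-!
# Measures of simplices
-/

namespace Pool.Agent.Q258.SimpLat

open Finset Filter Topology MeasureTheory

/-- Euclidean space of dimension `d` -/
abbrev E (d : ℕ) := EuclideanSpace ℝ (Fin d)

variable {d : ℕ}

/-- `D` is the vertex set of a `d`-simplex -/
def IsSimplexSet (D : Finset (E d)) : Prop :=
  AffineIndependent ℝ (fun x : D => (x : E d)) ∧ D.card = d + 1

/-- the signed measure with density the indicator function of `Ω` -/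
noncomputable def stdMeasure (Ω : Set (E d)) : SignedMeasure (E d) :=
  (volume : Measure (E d)).withDensityᵥ (Ω.indicator (fun _ => (1 : ℝ)))

theorem IsSimplexSet.good {D : Finset (E d)} (h : IsSimplexSet D) :
    Good D ∧ ∀ x, x ∈ Aff D := by
  classical
  obtain ⟨h1, h2⟩ := h
  have htop : affineSpan ℝ (Set.range (fun x : D => (x : E d))) = ⊤ := by
    rw [h1.affineSpan_eq_top_iff_card_eq_finrank_add_one]
    simp [h2]
  let b : AffineBasis D ℝ (E d) := ⟨_, h1, htop⟩
  have hb : ∀ v : D, b v = (v : E d) := fun v => rfl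
  constructor
  · intro v hv
    refine ⟨b.coord ⟨v, hv⟩, ?_, ?_⟩
    · have := b.coord_apply_eq ⟨v, hv⟩
      rwa [hb] at this
    · intro w hw hne
      have := b.coord_apply_ne (i := ⟨v, hv⟩) (j := ⟨w, hw⟩) (by
        intro he
        exact hne (Subtype.ext_iff.1 he).symm)
      rwa [hb] at this
  · intro x
    refine ⟨fun v => if hv : v ∈ D then b.coord ⟨v, hv⟩ x else 0, ?_, ?_⟩
    · rw [← sum_attach]
      have := b.sum_coord_apply_eq_one x
      rw [← this]
      apply sum_congr rfl
      intro v _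
      rw [dif_pos v.2]
    · rw [← sum_attach]
      have := b.linear_combination_coord_eq_self x
      conv_rhs => rw [← this]
      apply sum_congr rfl
      intro v _
      beta_reduce
      rw [dif_pos v.2, hb]

theorem isSimplexSet_of_good {D : Finset (E d)} (hG : Good D) (hA : ∀ x, x ∈ Aff D) :
    IsSimplexSet D := by
  classical
  have h1 : AffineIndependent ℝ (fun x : D => (x : E d)) := by
    rw [affineIndependent_iff]
    intro s w hw hs j hj
    obtain ⟨φ, hφ1, hφ2⟩ := hG j j.2
    have hφ : ∀ x, φ x = φ.linear x + φ 0 := fun x => by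
      have := φ.map_vadd 0 x
      simpa using this
    have h2 : φ.linear (∑ i ∈ s, w i • (i : E d)) = 0 := by rw [hs, map_zero]
    rw [map_sum] at h2
    have h3 : ∑ i ∈ s, w i * (φ i - φ 0) = 0 := by
      rw [← h2]
      apply sum_congr rfl
      intro i _
      rw [map_smul, smul_eq_mul, hφ i]
      ring
    have h4 : ∑ i ∈ s, w i * φ i = 0 := by
      have : ∑ i ∈ s, w i * (φ i - φ 0) = ∑ i ∈ s, w i * φ i - (∑ i ∈ s, w i) * φ 0 := by
        rw [sum_mul, ← sum_sub_distrib]
        apply sum_congr rfl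
        intro i _
        ring
      rw [this, hw, zero_mul, sub_zero] at h3
      exact h3
    rw [sum_eq_single j] at h4
    · rw [hφ1, mul_one] at h4
      exact h4
    · intro b _ hne
      rw [hφ2 b b.2 (fun he => hne (Subtype.ext he)), mul_zero]
    · intro h
      exact absurd hj h
  refine ⟨h1, ?_⟩
  have htop : affineSpan ℝ (Set.range (fun x : D => (x : E d))) = ⊤ := by
    rw [eq_top_iff]
    intro x _
    obtain ⟨w, hw1, hw2⟩ := hA x
    have h3 : x = D.affineCombination ℝ id w := by
      rw [D.affineCombination_eq_linear_combination _ _ hw1, ← hw2]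
      rfl
    have h4 := affineCombination_mem_affineSpan_image (k := ℝ) (s := D) (w := w) hw1
      (s' := (D : Set (E d))) (fun i hi hni => absurd hi hni) (id : E d → E d)
    rw [Set.image_id, ← h3] at h4
    rw [Subtype.range_coe_subtype]
    exact h4
  rw [h1.affineSpan_eq_top_iff_card_eq_finrank_add_one] at htop
  simpa using htop

theorem ind_eq (D : Finset (E d)) :
    ind D = (convexHull ℝ (D : Set (E d))).indicator (fun _ => (1 : ℝ)) := by
  classical
  ext x
  unfold ind
  by_cases h : x ∈ convexHull ℝ (D : Set (E d))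
  · rw [if_pos h, Set.indicator_of_mem h]
  · rw [if_neg h, Set.indicator_of_notMem h]

theorem integrable_indicator {K : Set (E d)} (hK : IsCompact K) :
    Integrable (K.indicator (fun _ => (1 : ℝ))) (volume : Measure (E d)) :=
  (integrableOn_const (hK.measure_lt_top.ne)).integrable_indicator hK.measurableSet

theorem integrable_ind (D : Finset (E d)) : Integrable (ind D) (volume : Measure (E d)) := by
  rw [ind_eq]
  exact integrable_indicator (D.finite_toSet.isCompact_convexHull ℝ)

theorem stdMeasure_conv (D : Finset (E d)) :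
    stdMeasure (convexHull ℝ (D : Set (E d))) = (volume : Measure (E d)).withDensityᵥ (ind D) := by
  rw [ind_eq]
  rfl

theorem integrable_sum_ind (s : Finset (Finset (E d))) (c : Finset (E d) → ℝ) :
    Integrable (fun x => ∑ D ∈ s, c D * ind D x) (volume : Measure (E d)) :=
  integrable_finsetSum s fun D _ => (integrable_ind D).const_mul (c D)

theorem wd_sum (s : Finset (Finset (E d))) (c : Finset (E d) → ℝ) :
    (volume : Measure (E d)).withDensityᵥ (fun x => ∑ D ∈ s, c D * ind D x) =
      ∑ D ∈ s, c D • stdMeasure (convexHull ℝ (D : Set (E d))) := by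
  classical
  induction s using Finset.induction_on with
  | empty =>
    simp only [sum_empty]
    exact withDensityᵥ_zero
  | insert D s hD ih =>
    rw [sum_insert hD, ← ih]
    have h1 : (fun x => ∑ D ∈ insert D s, c D * ind D x) =
        (c D • ind D) + (fun x => ∑ D ∈ s, c D * ind D x) := by
      ext x
      rw [sum_insert hD]
      rfl
    rw [h1, withDensityᵥ_add ((integrable_ind D).smul (c D)) (integrable_sum_ind s c),
      withDensityᵥ_smul, stdMeasure_conv]

/-- almost all points in the sense of affine functionals and Lebesgue-almost all points -/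
theorem AA.ae {p : E d → Prop} (h : AA Set.univ p) : ∀ᵐ x ∂(volume : Measure (E d)), p x := by
  obtain ⟨Φ, hΦ, hp⟩ := h
  have h1 : ∀ᵐ x ∂(volume : Measure (E d)), ∀ φ ∈ Φ, φ x ≠ 0 := by
    rw [Filter.eventually_all_finset]
    intro φ hφ
    obtain ⟨a, _, ha⟩ := hΦ φ hφ
    have h2 : (volume : Measure (E d)) ((affineSpan ℝ {(0 : ℝ)}).comap φ : Set (E d)) = 0 := by
      apply Measure.addHaar_affineSubspace
      intro he
      have : a ∈ (affineSpan ℝ {(0 : ℝ)}).comap φ := by
        rw [he]
        exact AffineSubspace.mem_top ℝ _ a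
      rw [AffineSubspace.mem_comap, AffineSubspace.mem_affineSpan_singleton] at this
      exact ha this
    rw [ae_iff]
    convert h2 using 2
    ext x
    simp
  filter_upwards [h1] with x hx
  exact hp x (Set.mem_univ x) hx

theorem locally_const {D : Finset (E d)} (hD : IsSimplexSet D) :
    ∃ Φ : Finset (E d →ᵃ[ℝ] ℝ), (∀ φ ∈ Φ, ∃ a, φ a ≠ 0) ∧
      ∀ x, (∀ φ ∈ Φ, φ x ≠ 0) → ∀ᶠ y in 𝓝 x, ind D y = ind D x := by
  classical
  obtain ⟨hG, hA⟩ := hD.good
  choose! lam h1 h0 using hG
  refine ⟨D.image lam, ?_, ?_⟩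
  · intro φ hφ
    rw [mem_image] at hφ
    obtain ⟨v, hv, rfl⟩ := hφ
    exact ⟨v, by rw [h1 v hv]; exact one_ne_zero⟩
  · intro x hx
    have h3 : ∀ᶠ y in 𝓝 x, ∀ v ∈ D, (0 ≤ lam v y ↔ 0 ≤ lam v x) := by
      rw [Filter.eventually_all_finset]
      intro v hv
      have hne := hx (lam v) (mem_image_of_mem _ hv)
      have hcont : Tendsto (lam v) (𝓝 x) (𝓝 (lam v x)) :=
        (AffineMap.continuous_of_finiteDimensional (lam v)).tendsto x
      rcases lt_or_gt_of_ne hne with hlt | hgt
      · filter_upwards [hcont.eventually (gt_mem_nhds hlt)] with y hy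
        constructor
        · intro h; linarith
        · intro h; linarith
      · filter_upwards [hcont.eventually (lt_mem_nhds hgt)] with y hy
        constructor
        · intro _; exact hgt.le
        · intro _; exact le_of_lt hy
    filter_upwards [h3] with y hy
    have hiff : y ∈ convexHull ℝ (D : Set (E d)) ↔ x ∈ convexHull ℝ (D : Set (E d)) := by
      rw [mem_conv_iff h1 h0 (hA y), mem_conv_iff h1 h0 (hA x)]
      exact ⟨fun h v hv => (hy v hv).1 (h v hv), fun h v hv => (hy v hv).2 (h v hv)⟩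
    unfold ind
    by_cases hc : x ∈ convexHull ℝ (D : Set (E d))
    · rw [if_pos hc, if_pos (hiff.2 hc)]
    · rw [if_neg hc, if_neg (fun h => hc (hiff.1 h))]

/-- a combination of indicator functions which agrees almost everywhere with a function with
integral values has integral values at almost all points -/
theorem integral_values {s : Finset (Finset (E d))} (hs : ∀ D ∈ s, IsSimplexSet D)
    (c : Finset (E d) → ℝ)
    (h : ∀ᵐ x ∂(volume : Measure (E d)), ∃ z : ℤ, ∑ D ∈ s, c D * ind D x = z) :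
    AA Set.univ (fun x => ∃ z : ℤ, ∑ D ∈ s, c D * ind D x = z) := by
  classical
  have h1 : ∀ D ∈ s, ∃ Φ : Finset (E d →ᵃ[ℝ] ℝ), (∀ φ ∈ Φ, ∃ a, φ a ≠ 0) ∧
      ∀ x, (∀ φ ∈ Φ, φ x ≠ 0) → ∀ᶠ y in 𝓝 x, ind D y = ind D x :=
    fun D hD => locally_const (hs D hD)
  choose! Φ hΦ1 hΦ2 using h1
  refine ⟨s.biUnion Φ, ?_, ?_⟩
  · intro φ hφ
    rw [mem_biUnion] at hφ
    obtain ⟨D, hD, hφ⟩ := hφ
    obtain ⟨a, ha⟩ := hΦ1 D hD φ hφ
    exact ⟨a, Set.mem_univ a, ha⟩
  · intro x _ hx
    have h2 : ∀ᶠ y in 𝓝 x, ∀ D ∈ s, ind D y = ind D x := by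
      rw [Filter.eventually_all_finset]
      intro D hD
      exact hΦ2 D hD x fun φ hφ => hx φ (mem_biUnion.2 ⟨D, hD, hφ⟩)
    have h3 : ∃ᶠ y in 𝓝 x, ∃ z : ℤ, ∑ D ∈ s, c D * ind D y = z := by
      have := Measure.dense_of_ae h
      exact mem_closure_iff_frequently.1 (this x)
    obtain ⟨y, ⟨z, hz⟩, hy⟩ := (h3.and_eventually h2).exists
    refine ⟨z, ?_⟩
    rw [← hz]
    apply sum_congr rfl
    intro D hD
    rw [hy D hD]

/-- elements of the group generated by indicator functions -/
theorem closure_coeff {V : Type*} [AddCommGroup V] [Module ℝ V] {B : Finset (Finset V)} {g : V → ℝ}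
    (hg : g ∈ AddSubgroup.closure (ind '' (B : Set (Finset V)))) :
    ∃ m : Finset V → ℤ, ∀ x, g x = ∑ D ∈ B, (m D : ℝ) * ind D x := by
  classical
  induction hg using AddSubgroup.closure_induction with
  | mem g hg =>
    obtain ⟨D, hD, rfl⟩ := hg
    refine ⟨fun D' => if D' = D then 1 else 0, fun x => ?_⟩
    rw [sum_eq_single D]
    · simp
    · intro b _ hne
      simp [hne]
    · intro h
      exact absurd hD h
  | zero => exact ⟨0, fun x => by simp⟩
  | add g₁ g₂ _ _ ih1 ih2 =>
    obtain ⟨a, ha⟩ := ih1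
    obtain ⟨b, hb⟩ := ih2
    refine ⟨a + b, fun x => ?_⟩
    rw [Pi.add_apply, ha x, hb x, ← sum_add_distrib]
    apply sum_congr rfl
    intro D _
    rw [Pi.add_apply]
    push_cast
    ring
  | neg g _ ih =>
    obtain ⟨a, ha⟩ := ih
    refine ⟨-a, fun x => ?_⟩
    rw [Pi.neg_apply, ha x, ← sum_neg_distrib]
    apply sum_congr rfl
    intro D _
    rw [Pi.neg_apply]
    push_cast
    ring

/-- the basis -/
theorem exists_basis (S : Finset (E d)) : ∃ B : Finset (Finset (E d)),
    (∀ D ∈ B, D ⊆ S ∧ IsSimplexSet D) ∧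
    (∀ c : Finset (E d) → ℝ,
      (∀ᵐ x ∂(volume : Measure (E d)), ∃ z : ℤ, ∑ D ∈ B, c D * ind D x = z) →
      ∀ D ∈ B, ∃ z : ℤ, c D = z) ∧
    (∀ D ⊆ S, IsSimplexSet D → ∃ m : Finset (E d) → ℤ,
      ∀ᵐ x ∂(volume : Measure (E d)), ind D x = ∑ D' ∈ B, (m D' : ℝ) * ind D' x) := by
  classical
  by_cases hex : ∃ D₀ ⊆ S, IsSimplexSet D₀
  · obtain ⟨D₀, hD₀, hs₀⟩ := hex
    have hAS : Aff S = Set.univ := by
      ext x
      refine ⟨fun _ => Set.mem_univ x, fun _ => ?_⟩
      exact Aff_trans (fun v hv => subset_Aff (hD₀ hv)) (hs₀.good.2 x)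
    obtain ⟨B, hB1, hB2, hB3⟩ := main_basis S.card S rfl
    rw [hAS] at hB2 hB3
    have hsimp : ∀ D ∈ B, IsSimplexSet D := by
      intro D hD
      apply isSimplexSet_of_good (hB1 D hD).2.1
      intro x
      apply (hB1 D hD).aff
      rw [hAS]
      exact Set.mem_univ x
    refine ⟨B, fun D hD => ⟨(hB1 D hD).1, hsimp D hD⟩, ?_, ?_⟩
    · intro c hc
      exact hB2 c (integral_values hsimp c hc)
    · intro D hDS hD
      obtain ⟨g, hg, hAA⟩ := hB3 D ⟨hDS, hD.good.1, fun t _ => hD.good.2 t⟩
      obtain ⟨m, hm⟩ := closure_coeff hg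
      refine ⟨m, ?_⟩
      filter_upwards [hAA.ae] with x hx
      rw [hx, hm x]
  · refine ⟨∅, by simp, by simp, fun D hDS hD => absurd ⟨D, hDS, hD⟩ hex⟩

end Pool.Agent.Q258.SimpLat
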